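import Mathlib

namespace Pool.Agent.Results.MP_9a0911_co.Example

/-- Every symbol occurs exactly once in each row and in each column. -/
def IsLatin {n : ℕ} (L : Fin n → Fin n → Fin n) : Prop :=
  (∀ i, Function.Bijective (fun j => L i j)) ∧ ∀ j, Function.Bijective (fun i => L i j)

/-- Exactly `r` distinct ordered pairs occur when `L` and `M` are superimposed. -/
def ROrth {n : ℕ} (r : ℕ) (L M : Fin n → Fin n → Fin n) : Prop :=
  (Finset.univ.image (fun p : Fin n × Fin n => (L p.1 p.2, M p.1 p.2))).card = r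

/-- A `2 × 2` Latin subsquare in rows `i, i'` and columns `j, j'`. -/
def Sub {n : ℕ} (L : Fin n → Fin n → Fin n) (i i' j j' : Fin n) : Prop :=
  i ≠ i' ∧ j ≠ j' ∧ L i j = L i' j' ∧ L i j' = L i' j ∧ L i j ≠ L i j'

def NearOrth {n : ℕ} (L M : Fin n → Fin n → Fin n) : Prop :=
  ROrth (n ^ 2 - 2) L M ∧ ∃ i i' j j', Sub L i i' j j' ∧ Sub M i i' j j' ∧
    ({L i j, L i j'} : Finset (Fin n)) = {M i j, M i j'}

def L : Fin 6 → Fin 6 → Fin 6 :=
  ![![0, 3, 1, 5, 2, 4], ![5, 0, 2, 4, 3, 1], ![1, 4, 0, 2, 5, 3], ![2, 1, 5, 3, 4, 0],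
    ![4, 5, 3, 0, 1, 2], ![3, 2, 4, 1, 0, 5]]

def M : Fin 6 → Fin 6 → Fin 6 :=
  ![![0, 5, 1, 2, 4, 3], ![4, 0, 2, 5, 3, 1], ![3, 4, 5, 1, 0, 2], ![5, 2, 3, 0, 1, 4],
    ![2, 1, 4, 3, 5, 0], ![1, 3, 0, 4, 2, 5]]

lemma key : ∀ i i' j j' : Fin 6, i ≠ i' → j ≠ j' → L i j = L i' j' → L i j' = L i' j →
    M i j = M i' j' → M i j' ≠ M i' j := by decide +kernel

theorem result : ∃ (n : ℕ) (A B : Fin n → Fin n → Fin n), IsLatin A ∧ IsLatin B ∧
    ROrth (n ^ 2 - 2) A B ∧ ∀ σ : Equiv.Perm (Fin n), ¬ NearOrth A (fun i j => σ (B i j)) := by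
  refine ⟨6, L, M, by unfold IsLatin; decide +kernel, by unfold IsLatin; decide +kernel,
    by unfold ROrth; decide +kernel, ?_⟩
  rintro σ ⟨_, i, i', j, j', h1, h2, _⟩
  exact key i i' j j' h1.1 h1.2.1 h1.2.2.1 h1.2.2.2.1 (σ.injective h2.2.2.1)
    (σ.injective h2.2.2.2.1)

end Pool.Agent.Results.MP_9a0911_co.Example
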